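import Pool.Agent.H31.MP.Basic

/-!
# Row GU of the board mtp_modules: upper bound for sums over rough numbers
-/

set_option autoImplicit false

open Finset

namespace Pool.Agent.H27.MTP.GU

open Pool.Agent.H31.MP

theorem totient_sqf {a : ℕ} (h : Squarefree a) :
    (a.totient : ℝ) = ∏ p ∈ a.primeFactors, ((p : ℝ) - 1) := by
  have h1 := Nat.totient_eq_mul_prod_factors a
  have h2 : (a.totient : ℝ) = a * ∏ p ∈ a.primeFactors, (1 - (p : ℝ)⁻¹) := by
    have h0 : ((a.totient : ℚ) : ℝ) = ((a * ∏ p ∈ a.primeFactors, (1 - (p : ℚ)⁻¹) : ℚ) : ℝ) := by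
      rw [h1]
    push_cast at h0
    exact h0
  have h3 : (a : ℝ) = ∏ p ∈ a.primeFactors, (p : ℝ) := by
    rw [← Nat.cast_prod, Nat.prod_primeFactors_of_squarefree h]
  rw [h2]
  conv_lhs => rw [h3]
  rw [← prod_mul_distrib]
  refine prod_congr rfl fun p hp => ?_
  have hp0 : (p : ℝ) ≠ 0 := by
    exact_mod_cast (Nat.prime_of_mem_primeFactors hp).ne_zero
  field_simp

/-- the primes up to `z` -/
noncomputable def PP (z : ℝ) : Finset ℕ := (Icc 1 ⌊z⌋₊).filter Nat.Prime

theorem Me_eq (z : ℝ) : Me z = ∏ p ∈ PP z, (1 - 1 / (p : ℝ)) := rfl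

theorem fac_pos {p : ℕ} (hp : p.Prime) : (0 : ℝ) < 1 - 1 / (p : ℝ) := by
  have h : (1 : ℝ) < p := by exact_mod_cast hp.one_lt
  rw [sub_pos, div_lt_one (by linarith)]
  exact h

theorem Me_pos (z : ℝ) : 0 < Me z := by
  rw [Me_eq]
  exact prod_pos fun p hp => fac_pos (mem_filter.1 hp).2

theorem sum_le_prod {z Y : ℝ} (hz : 0 ≤ z) :
    ∑ a ∈ RS z Y, 1 / (a.totient : ℝ) ≤ ∏ p ∈ PP Y \ PP z, (1 - 1 / (p : ℝ))⁻¹ := by
  classical
  have h1 : ∏ p ∈ PP Y \ PP z, (1 - 1 / (p : ℝ))⁻¹ =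
      ∑ t ∈ (PP Y \ PP z).powerset, ∏ p ∈ t, 1 / ((p : ℝ) - 1) := by
    rw [← Finset.prod_one_add]
    refine prod_congr rfl fun p hp => ?_
    have hpp : p.Prime := (mem_filter.1 (mem_sdiff.1 hp).1).2
    have h : (1 : ℝ) < p := by exact_mod_cast hpp.one_lt
    have h2 : (p : ℝ) - 1 ≠ 0 := by linarith
    have h3 : (p : ℝ) ≠ 0 := by linarith
    field_simp
    ring
  rw [h1]
  have h2 : ∑ a ∈ RS z Y, 1 / (a.totient : ℝ) =
      ∑ t ∈ (RS z Y).image Nat.primeFactors, ∏ p ∈ t, 1 / ((p : ℝ) - 1) := by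
    rw [sum_image]
    · refine sum_congr rfl fun a ha => ?_
      have hs : Squarefree a := (mem_filter.1 ha).2.1
      rw [totient_sqf hs, one_div, ← prod_inv_distrib]
      exact prod_congr rfl fun p _ => (one_div _).symm
    · intro a ha b hb hab
      have hs : Squarefree a := (mem_filter.1 ha).2.1
      have hs' : Squarefree b := (mem_filter.1 hb).2.1
      rw [← Nat.prod_primeFactors_of_squarefree hs, ← Nat.prod_primeFactors_of_squarefree hs', hab]
  rw [h2]
  refine sum_le_sum_of_subset_of_nonneg ?_ ?_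
  · intro t ht
    obtain ⟨a, ha, rfl⟩ := mem_image.1 ht
    have ha' := mem_filter.1 ha
    have ha1 := mem_Icc.1 ha'.1
    rw [mem_powerset]
    intro p hp
    have hpp := Nat.prime_of_mem_primeFactors hp
    have hpd := Nat.dvd_of_mem_primeFactors hp
    rw [mem_sdiff, PP, mem_filter, mem_Icc, PP, mem_filter, mem_Icc]
    refine ⟨⟨⟨hpp.one_lt.le, (Nat.le_of_dvd (by omega) hpd).trans ha1.2⟩, hpp⟩, ?_⟩
    rintro ⟨⟨-, h3⟩, -⟩
    have h4 := ha'.2.2 p hpp hpd
    have h5 := (Nat.le_floor_iff hz).1 h3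
    linarith
  · intro t ht _
    refine prod_nonneg fun p hp => ?_
    have hpp : p.Prime := (mem_filter.1 (mem_sdiff.1 (mem_powerset.1 ht hp)).1).2
    have h : (1 : ℝ) < p := by exact_mod_cast hpp.one_lt
    exact div_nonneg zero_le_one (by linarith)

theorem pf_GU (hMR : T_MR) : T_GU := by
  classical
  obtain ⟨c, C, hc, hC, h⟩ := hMR
  refine ⟨1 + C / c, by positivity, fun z Y hz hY => ?_⟩
  have hz0 : 0 ≤ z := by linarith
  have hmax : (1 : ℝ) ≤ max 1 (Real.log Y / Real.log z) := le_max_left _ _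
  have hCc : 0 < C / c := by positivity
  refine (sum_le_prod hz0).trans ?_
  by_cases hYz : Y ≤ z
  · have h1 : PP Y \ PP z = ∅ := by
      rw [sdiff_eq_empty_iff_subset]
      intro p hp
      rw [PP, mem_filter, mem_Icc] at hp ⊢
      exact ⟨⟨hp.1.1, hp.1.2.trans (Nat.floor_le_floor hYz)⟩, hp.2⟩
    rw [h1, prod_empty]
    nlinarith
  · push Not at hYz
    have hsub : PP z ⊆ PP Y := by
      intro p hp
      rw [PP, mem_filter, mem_Icc] at hp ⊢
      exact ⟨⟨hp.1.1, hp.1.2.trans (Nat.floor_le_floor hYz.le)⟩, hp.2⟩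
    have h1 : (∏ p ∈ PP Y \ PP z, (1 - 1 / (p : ℝ))) * Me z = Me Y := by
      rw [Me_eq, Me_eq]
      exact prod_sdiff hsub
    have h2 : ∏ p ∈ PP Y \ PP z, (1 - 1 / (p : ℝ))⁻¹ = Me z / Me Y := by
      rw [prod_inv_distrib, ← h1]
      have h3 := Me_pos z
      have h4 : 0 < ∏ p ∈ PP Y \ PP z, (1 - 1 / (p : ℝ)) :=
        prod_pos fun p hp => fac_pos (mem_filter.1 (mem_sdiff.1 hp).1).2
      field_simp
    rw [h2]
    have hlz : 0 < Real.log z := Real.log_pos (by linarith)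
    have hlY : 0 < Real.log Y := Real.log_pos (by linarith)
    have h5 := (h z hz).2
    have h6 := (h Y (by linarith)).1
    have h7 : Me z / Me Y ≤ (C / Real.log z) / (c / Real.log Y) :=
      div_le_div₀ (by positivity) h5 (by positivity) h6
    have h8 : (C / Real.log z) / (c / Real.log Y) = C / c * (Real.log Y / Real.log z) := by
      field_simp
    have h9 : Real.log Y / Real.log z ≤ max 1 (Real.log Y / Real.log z) := le_max_right _ _
    rw [h8] at h7
    nlinarith [mul_le_mul_of_nonneg_left h9 hCc.le]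

end Pool.Agent.H27.MTP.GU
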