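import Pool.Agent.H31.MP.Basic

/-!
# Rows LC and LD of the board mtp_modules: layer cake bounds for sums over rough numbers
-/

set_option autoImplicit false

open Finset

namespace Pool.Agent.H27.MTP

/-- the layer cake identity for one point -/
theorem layer_one {g h : ℝ → ℝ} {T t : ℝ} (ht0 : 0 ≤ t) (htT : t ≤ T)
    (hg : ∀ s ∈ Set.Icc 0 T, HasDerivAt g (-h s) s) (hc : ContinuousOn h (Set.Icc 0 T)) :
    IntervalIntegrable (fun s => if t < s then h s else 0) MeasureTheory.volume 0 T ∧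
    ∫ s in (0 : ℝ)..T, (if t < s then h s else 0) = g t - g T := by
  have hc1 : ContinuousOn h (Set.uIcc t T) := by
    rw [Set.uIcc_of_le htT]
    exact hc.mono (Set.Icc_subset_Icc_left ht0)
  have e1 : ∀ s ∈ Set.uIoc 0 t, (0 : ℝ) = if t < s then h s else 0 := by
    intro s hs
    rw [Set.uIoc_of_le ht0] at hs
    rw [if_neg (not_lt.2 hs.2)]
  have e2 : ∀ s ∈ Set.uIoc t T, h s = if t < s then h s else 0 := by
    intro s hs
    rw [Set.uIoc_of_le htT] at hs
    rw [if_pos hs.1]
  have i1 : IntervalIntegrable (fun s => if t < s then h s else 0) MeasureTheory.volume 0 t :=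
    (intervalIntegrable_const (c := (0 : ℝ))).congr e1
  have i2 : IntervalIntegrable (fun s => if t < s then h s else 0) MeasureTheory.volume t T :=
    hc1.intervalIntegrable.congr e2
  refine ⟨i1.trans i2, ?_⟩
  rw [← intervalIntegral.integral_add_adjacent_intervals i1 i2]
  have e3 : ∫ s in (0 : ℝ)..t, (if t < s then h s else 0) = 0 := by
    rw [← intervalIntegral.integral_congr_ae
      (Filter.Eventually.of_forall fun s hs => e1 s hs), intervalIntegral.integral_zero]
  have e4 : ∫ s in t..T, (if t < s then h s else 0) = g t - g T := by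
    rw [← intervalIntegral.integral_congr_ae (Filter.Eventually.of_forall fun s hs => e2 s hs)]
    have h1 : ∫ s in t..T, -h s = g T - g t := by
      refine intervalIntegral.integral_eq_sub_of_hasDerivAt (fun s hs => ?_) hc1.neg.intervalIntegrable
      rw [Set.uIcc_of_le htT] at hs
      exact hg s ⟨ht0.trans hs.1, hs.2⟩
    rw [intervalIntegral.integral_neg] at h1
    linarith
  rw [e3, e4, zero_add]

/-- the layer cake identity -/
theorem layer {ι : Type*} (S : Finset ι) (t μ : ι → ℝ) {g h : ℝ → ℝ} {T : ℝ}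
    (ht : ∀ a ∈ S, 0 ≤ t a ∧ t a ≤ T)
    (hg : ∀ s ∈ Set.Icc 0 T, HasDerivAt g (-h s) s) (hc : ContinuousOn h (Set.Icc 0 T)) :
    IntervalIntegrable (fun s => h s * ∑ a ∈ S, if t a < s then μ a else 0)
      MeasureTheory.volume 0 T ∧
    ∑ a ∈ S, μ a * g (t a) = g T * ∑ a ∈ S, μ a +
      ∫ s in (0 : ℝ)..T, h s * ∑ a ∈ S, if t a < s then μ a else 0 := by
  have e : ∀ s, h s * ∑ a ∈ S, (if t a < s then μ a else 0) =
      ∑ a ∈ S, μ a * (if t a < s then h s else 0) := by
    intro s
    rw [mul_sum]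
    refine sum_congr rfl fun a _ => ?_
    split_ifs <;> ring
  have hi : ∀ a ∈ S, IntervalIntegrable (fun s => μ a * (if t a < s then h s else 0))
      MeasureTheory.volume 0 T := fun a ha =>
    (layer_one (ht a ha).1 (ht a ha).2 hg hc).1.const_mul _
  constructor
  · simp only [e]
    have h0 := IntervalIntegrable.sum S hi
    have e0 : (∑ i ∈ S, fun s => μ i * (if t i < s then h s else 0)) =
        fun s => ∑ a ∈ S, μ a * (if t a < s then h s else 0) := by
      funext s
      rw [Finset.sum_apply]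
    rwa [e0] at h0
  · simp only [e]
    rw [intervalIntegral.integral_finsetSum hi, mul_sum, ← sum_add_distrib]
    refine sum_congr rfl fun a ha => ?_
    rw [intervalIntegral.integral_const_mul, (layer_one (ht a ha).1 (ht a ha).2 hg hc).2]
    ring

/-- lower bound -/
theorem layer_lower {ι : Type*} (S : Finset ι) (t μ : ι → ℝ) {g h P : ℝ → ℝ} {T c : ℝ}
    (hT : 0 ≤ T) (ht : ∀ a ∈ S, 0 ≤ t a ∧ t a ≤ T) (hμ : ∀ a ∈ S, 0 ≤ μ a)
    (hg : ∀ s ∈ Set.Icc 0 T, HasDerivAt g (-h s) s) (hc : ContinuousOn h (Set.Icc 0 T))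
    (hh : ∀ s ∈ Set.Icc 0 T, 0 ≤ h s) (hgT : 0 ≤ g T)
    (hP : ∀ s ∈ Set.Icc 0 T, HasDerivAt P (s * h s) s)
    (hG : ∀ s, 0 ≤ s → s ≤ T → c * s ≤ ∑ a ∈ S.filter (fun a => t a ≤ s), μ a) :
    c * (g T * T + (P T - P 0)) ≤ ∑ a ∈ S, μ a * g (t a) := by
  obtain ⟨hi, he⟩ := layer S t μ ht hg hc
  rw [he]
  have h1 : c * T ≤ ∑ a ∈ S, μ a := by
    have := hG T hT le_rfl
    rwa [filter_true_of_mem fun a ha => (ht a ha).2] at this
  have hPi : IntervalIntegrable (fun s => s * h s) MeasureTheory.volume 0 T := by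
    refine ContinuousOn.intervalIntegrable ?_
    rw [Set.uIcc_of_le hT]
    exact continuousOn_id.mul hc
  have h2 : ∫ s in (0 : ℝ)..T, s * h s = P T - P 0 := by
    refine intervalIntegral.integral_eq_sub_of_hasDerivAt (fun s hs => ?_) hPi
    rw [Set.uIcc_of_le hT] at hs
    exact hP s hs
  have h3 : c * (P T - P 0) ≤ ∫ s in (0 : ℝ)..T, h s * ∑ a ∈ S, if t a < s then μ a else 0 := by
    rw [← h2, ← intervalIntegral.integral_const_mul]
    refine intervalIntegral.integral_mono_on hT (hPi.const_mul c) hi fun s hs => ?_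
    have h4 : c * s ≤ ∑ a ∈ S, if t a < s then μ a else 0 := by
      rw [← sum_filter]
      rcases eq_or_lt_of_le hs.1 with h0 | h0
      · rw [← h0, mul_zero]
        exact sum_nonneg fun a ha => hμ a (mem_filter.1 ha).1
      · have h5 : ∀ s' ∈ Set.Ico 0 s, c * s' ≤ ∑ a ∈ S.filter (fun a => t a < s), μ a := by
          intro s' hs'
          refine (hG s' hs'.1 (hs'.2.le.trans hs.2)).trans ?_
          refine sum_le_sum_of_subset_of_nonneg ?_ ?_
          · intro a ha
            rw [mem_filter] at ha ⊢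
            exact ⟨ha.1, lt_of_le_of_lt ha.2 hs'.2⟩
          · intro a ha _
            exact hμ a (mem_filter.1 ha).1
        have h6 : Filter.Tendsto (fun s' => c * s') (nhdsWithin s (Set.Iio s)) (nhds (c * s)) :=
          ((continuous_const.mul continuous_id).tendsto s).mono_left nhdsWithin_le_nhds
        refine le_of_tendsto h6 ?_
        filter_upwards [Ico_mem_nhdsLT h0] with s' hs'
        exact h5 s' hs'
    have h7 := hh s hs
    nlinarith [mul_le_mul_of_nonneg_left h4 h7]
  have h8 := mul_le_mul_of_nonneg_left h1 hgT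
  nlinarith

/-- upper bound -/
theorem layer_upper {ι : Type*} (S : Finset ι) (t μ : ι → ℝ) {g h P : ℝ → ℝ} {T A D : ℝ}
    (hT : 0 ≤ T) (ht : ∀ a ∈ S, 0 ≤ t a ∧ t a ≤ T) (hμ : ∀ a ∈ S, 0 ≤ μ a)
    (hg : ∀ s ∈ Set.Icc 0 T, HasDerivAt g (-h s) s) (hc : ContinuousOn h (Set.Icc 0 T))
    (hh : ∀ s ∈ Set.Icc 0 T, 0 ≤ h s) (hgT : 0 ≤ g T)
    (hP : ∀ s ∈ Set.Icc 0 T, HasDerivAt P (s * h s) s)
    (hG : ∀ s, 0 ≤ s → s ≤ T → ∑ a ∈ S.filter (fun a => t a ≤ s), μ a ≤ A + D * s) :
    ∑ a ∈ S, μ a * g (t a) ≤ A * g 0 + D * (g T * T + (P T - P 0)) := by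
  obtain ⟨hi, he⟩ := layer S t μ ht hg hc
  rw [he]
  have h1 : ∑ a ∈ S, μ a ≤ A + D * T := by
    have := hG T hT le_rfl
    rwa [filter_true_of_mem fun a ha => (ht a ha).2] at this
  have hhi : IntervalIntegrable h MeasureTheory.volume 0 T := by
    refine ContinuousOn.intervalIntegrable ?_
    rw [Set.uIcc_of_le hT]
    exact hc
  have hPi : IntervalIntegrable (fun s => s * h s) MeasureTheory.volume 0 T := by
    refine ContinuousOn.intervalIntegrable ?_
    rw [Set.uIcc_of_le hT]
    exact continuousOn_id.mul hc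
  have h2 : ∫ s in (0 : ℝ)..T, s * h s = P T - P 0 := by
    refine intervalIntegral.integral_eq_sub_of_hasDerivAt (fun s hs => ?_) hPi
    rw [Set.uIcc_of_le hT] at hs
    exact hP s hs
  have h2' : ∫ s in (0 : ℝ)..T, h s = g 0 - g T := by
    have h1 : ∫ s in (0 : ℝ)..T, -h s = g T - g 0 := by
      refine intervalIntegral.integral_eq_sub_of_hasDerivAt (fun s hs => ?_) hhi.neg
      rw [Set.uIcc_of_le hT] at hs
      exact hg s hs
    rw [intervalIntegral.integral_neg] at h1
    linarith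
  have h3 : ∫ s in (0 : ℝ)..T, h s * ∑ a ∈ S, (if t a < s then μ a else 0) ≤
      A * (g 0 - g T) + D * (P T - P 0) := by
    rw [← h2, ← h2', ← intervalIntegral.integral_const_mul, ← intervalIntegral.integral_const_mul,
      ← intervalIntegral.integral_add (hhi.const_mul A) (hPi.const_mul D)]
    refine intervalIntegral.integral_mono_on hT hi ((hhi.const_mul A).add (hPi.const_mul D))
      fun s hs => ?_
    have h4 : ∑ a ∈ S, (if t a < s then μ a else 0) ≤ A + D * s := by
      rw [← sum_filter]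
      refine le_trans ?_ (hG s hs.1 hs.2)
      refine sum_le_sum_of_subset_of_nonneg ?_ ?_
      · intro a ha
        rw [mem_filter] at ha ⊢
        exact ⟨ha.1, ha.2.le⟩
      · intro a ha _
        exact hμ a (mem_filter.1 ha).1
    have h7 := hh s hs
    nlinarith [mul_le_mul_of_nonneg_left h4 h7]
  have h8 := mul_le_mul_of_nonneg_left h1 hgT
  nlinarith

/-! ### The two functions -/

theorem one_d {B : ℝ} (hB : 0 < B) {s : ℝ} (hs : 0 ≤ s) :
    HasDerivAt (fun x : ℝ => 1 / (1 + B * x)) (-(B / (1 + B * s) ^ 2)) s := by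
  have h0 : 1 + B * s ≠ 0 := by positivity
  have h1 : HasDerivAt (fun x : ℝ => 1 + B * x) B s := by
    simpa using ((hasDerivAt_id s).const_mul B).const_add 1
  have h2 := h1.inv h0
  simp only [one_div]
  refine h2.congr_deriv ?_
  ring

theorem one_P {B : ℝ} (hB : 0 < B) {s : ℝ} (hs : 0 ≤ s) :
    HasDerivAt (fun x : ℝ => 1 / B * (Real.log (1 + B * x) + 1 / (1 + B * x)))
      (s * (B / (1 + B * s) ^ 2)) s := by
  have h0 : 1 + B * s ≠ 0 := by positivity
  have h1 : HasDerivAt (fun x : ℝ => 1 + B * x) B s := by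
    simpa using ((hasDerivAt_id s).const_mul B).const_add 1
  have h2 := ((h1.log h0).add (one_d hB hs)).const_mul (1 / B)
  refine h2.congr_deriv ?_
  field_simp
  ring

theorem two_d {B : ℝ} (hB : 0 < B) {s : ℝ} (hs : 0 ≤ s) :
    HasDerivAt (fun x : ℝ => (1 / (1 + B * x)) ^ 2) (-(2 * B / (1 + B * s) ^ 3)) s := by
  have h0 : 1 + B * s ≠ 0 := by positivity
  have h2 := (one_d hB hs).pow 2
  refine h2.congr_deriv ?_
  push_cast
  field_simp

theorem two_P {B : ℝ} (hB : 0 < B) {s : ℝ} (hs : 0 ≤ s) :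
    HasDerivAt (fun x : ℝ => -(x * (1 / (1 + B * x)) ^ 2) - 1 / B * (1 / (1 + B * x)))
      (s * (2 * B / (1 + B * s) ^ 3)) s := by
  have h0 : 1 + B * s ≠ 0 := by positivity
  have h2 := (((hasDerivAt_id s).mul (two_d hB hs)).neg).sub ((one_d hB hs).const_mul (1 / B))
  refine h2.congr_deriv ?_
  simp only [id]
  field_simp
  ring

theorem one_c {B : ℝ} (hB : 0 < B) : ContinuousOn (fun s : ℝ => B / (1 + B * s) ^ 2)
    (Set.Icc 0 (1 / 4)) := by
  refine continuousOn_const.div (by fun_prop) fun s hs => ?_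
  have := hs.1
  positivity

theorem two_c {B : ℝ} (hB : 0 < B) : ContinuousOn (fun s : ℝ => 2 * B / (1 + B * s) ^ 3)
    (Set.Icc 0 (1 / 4)) := by
  refine continuousOn_const.div (by fun_prop) fun s hs => ?_
  have := hs.1
  positivity

open Pool.Agent.H31.MP

theorem mem_RS {z Y : ℝ} {a : ℕ} (hY : 0 ≤ Y) : a ∈ RS z Y ↔ 1 ≤ a ∧ (a : ℝ) ≤ Y ∧ Rgh z a := by
  classical
  unfold RS
  rw [mem_filter, mem_Icc, Nat.le_floor_iff hY, and_assoc]

/-- the filtered sums -/
theorem filter_RS {z Y s : ℝ} (hY : 1 < Y) (hs : s ≤ 1 / 4) :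
    (RS z (Y ^ (1 / 4 : ℝ))).filter (fun a : ℕ => Real.log a / Real.log Y ≤ s) = RS z (Y ^ s) := by
  have hY0 : 0 < Y := by linarith
  have hl : 0 < Real.log Y := Real.log_pos hY
  ext a
  rw [mem_filter, mem_RS (by positivity), mem_RS (by positivity)]
  constructor
  · rintro ⟨⟨h1, h2, h3⟩, h4⟩
    refine ⟨h1, ?_, h3⟩
    rw [div_le_iff₀ hl] at h4
    exact (Real.le_rpow_iff_log_le (by exact_mod_cast h1) hY0).2 h4
  · rintro ⟨h1, h2, h3⟩
    refine ⟨⟨h1, h2.trans (Real.rpow_le_rpow_of_exponent_le hY.le hs), h3⟩, ?_⟩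
    rw [div_le_iff₀ hl]
    exact (Real.le_rpow_iff_log_le (by exact_mod_cast h1) hY0).1 h2

theorem t_bounds {z Y : ℝ} (hY : 1 < Y) {a : ℕ} (ha : a ∈ RS z (Y ^ (1 / 4 : ℝ))) :
    0 ≤ Real.log a / Real.log Y ∧ Real.log a / Real.log Y ≤ 1 / 4 := by
  have hY0 : 0 < Y := by linarith
  have hl : 0 < Real.log Y := Real.log_pos hY
  obtain ⟨h1, h2, -⟩ := (mem_RS (by positivity)).1 ha
  refine ⟨div_nonneg (Real.log_nonneg (by exact_mod_cast h1)) hl.le, ?_⟩
  rw [div_le_iff₀ hl]
  exact (Real.le_rpow_iff_log_le (by exact_mod_cast h1) hY0).1 h2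

theorem pf_LC : T_LC := by
  intro c B z Y hc hB hz hY hG
  have hB0 : 0 < B := by linarith
  have hY0 : 0 < Y := by linarith
  have hl : 0 < Real.log Y := Real.log_pos hY
  have hlz : 0 < Real.log z := Real.log_pos (by linarith)
  have hG' : ∀ s, 0 ≤ s → s ≤ 1 / 4 → c * (Real.log Y / Real.log z) * s ≤
      ∑ a ∈ (RS z (Y ^ (1 / 4 : ℝ))).filter (fun a : ℕ => Real.log a / Real.log Y ≤ s),
        1 / (a.totient : ℝ) := by
    intro s hs hs4
    rw [filter_RS hY hs4]
    have h1 := hG (Y ^ s) (Real.one_le_rpow hY.le hs)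
      ((Real.rpow_le_rpow_of_exponent_le hY.le (by linarith)).trans (Real.rpow_one Y).le)
    rw [Real.log_rpow hY0] at h1
    have e : c * (Real.log Y / Real.log z) * s = c * (s * Real.log Y) / Real.log z := by ring
    rw [e, div_le_iff₀ hlz]
    linarith
  have hμ : ∀ a ∈ RS z (Y ^ (1 / 4 : ℝ)), 0 ≤ 1 / (a.totient : ℝ) := fun a _ => by positivity
  constructor
  · have h := layer_lower (RS z (Y ^ (1 / 4 : ℝ))) (fun a : ℕ => Real.log a / Real.log Y)
      (fun a : ℕ => 1 / (a.totient : ℝ)) (T := 1 / 4) (c := c * (Real.log Y / Real.log z))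
      (by norm_num) (fun a ha => t_bounds hY ha) hμ (fun s hs => one_d hB0 hs.1) (one_c hB0)
      (fun s hs => by have := hs.1; positivity) (by positivity) (fun s hs => one_P hB0 hs.1) hG'
    have e : 1 / (1 + B * (1 / 4)) * (1 / 4) + (1 / B * (Real.log (1 + B * (1 / 4)) +
        1 / (1 + B * (1 / 4))) - 1 / B * (Real.log (1 + B * 0) + 1 / (1 + B * 0))) =
        Real.log (1 + B / 4) / B := by
      have e1 : 1 + B * (1 / 4) = 1 + B / 4 := by ring
      rw [e1, mul_zero, add_zero, Real.log_one]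
      have h5 : (1 + B / 4) ≠ 0 := by positivity
      field_simp
      ring
    rw [e] at h
    refine h.trans (le_of_eq (sum_congr rfl fun a _ => ?_))
    ring
  · have h := layer_lower (RS z (Y ^ (1 / 4 : ℝ))) (fun a : ℕ => Real.log a / Real.log Y)
      (fun a : ℕ => 1 / (a.totient : ℝ)) (T := 1 / 4) (c := c * (Real.log Y / Real.log z))
      (by norm_num) (fun a ha => t_bounds hY ha) hμ (fun s hs => two_d hB0 hs.1) (two_c hB0)
      (fun s hs => by have := hs.1; positivity) (by positivity) (fun s hs => two_P hB0 hs.1) hG'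
    have e : (1 / (1 + B * (1 / 4))) ^ 2 * (1 / 4) + (-(1 / 4 * (1 / (1 + B * (1 / 4))) ^ 2) -
        1 / B * (1 / (1 + B * (1 / 4))) - (-(0 * (1 / (1 + B * 0)) ^ 2) -
        1 / B * (1 / (1 + B * 0)))) = 1 / (4 + B) := by
      have h5 : (1 + B / 4) ≠ 0 := by positivity
      have e1 : 1 + B * (1 / 4) = 1 + B / 4 := by ring
      rw [e1]
      field_simp
      ring
    rw [e] at h
    have h6 : 1 / (4 * B) ≤ 1 / (4 + B) := one_div_le_one_div_of_le (by positivity) (by linarith)
    refine (mul_le_mul_of_nonneg_left h6 (by positivity)).trans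
      (h.trans (le_of_eq (sum_congr rfl fun a _ => ?_)))
    ring

theorem pf_LD : T_LD := by
  intro C B z Y hC hB hz hY hBz hG
  have hB0 : 0 < B := by linarith
  have hY0 : 0 < Y := by linarith
  have hl : 0 < Real.log Y := Real.log_pos hY
  have hlz : 0 < Real.log z := Real.log_pos (by linarith)
  have hG' : ∀ s, 0 ≤ s → s ≤ 1 / 4 →
      ∑ a ∈ (RS z (Y ^ (1 / 4 : ℝ))).filter (fun a : ℕ => Real.log a / Real.log Y ≤ s),
        1 / (a.totient : ℝ) ≤ C + C * (Real.log Y / Real.log z) * s := by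
    intro s hs hs4
    rw [filter_RS hY hs4]
    have h1 := hG (Y ^ s) (Real.one_le_rpow hY.le hs)
      ((Real.rpow_le_rpow_of_exponent_le hY.le (by linarith)).trans (Real.rpow_one Y).le)
    rw [Real.log_rpow hY0] at h1
    refine h1.trans ?_
    have h2 : max 1 (s * Real.log Y / Real.log z) ≤ 1 + Real.log Y / Real.log z * s := by
      have h3 : 0 ≤ Real.log Y / Real.log z * s := by positivity
      refine max_le (by linarith) ?_
      have e : s * Real.log Y / Real.log z = Real.log Y / Real.log z * s := by ring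
      rw [e]
      linarith
    nlinarith [mul_le_mul_of_nonneg_left h2 hC.le]
  have hμ : ∀ a ∈ RS z (Y ^ (1 / 4 : ℝ)), 0 ≤ 1 / (a.totient : ℝ) := fun a _ => by positivity
  have hq : 1 ≤ Real.log Y / Real.log z * (1 / B) := by
    rw [mul_one_div, div_div, one_le_div (by positivity)]
    linarith
  constructor
  · have h := layer_upper (RS z (Y ^ (1 / 4 : ℝ))) (fun a : ℕ => Real.log a / Real.log Y)
      (fun a : ℕ => 1 / (a.totient : ℝ)) (T := 1 / 4) (A := C)
      (D := C * (Real.log Y / Real.log z))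
      (by norm_num) (fun a ha => t_bounds hY ha) hμ (fun s hs => one_d hB0 hs.1) (one_c hB0)
      (fun s hs => by have := hs.1; positivity) (by positivity) (fun s hs => one_P hB0 hs.1) hG'
    have e : 1 / (1 + B * (1 / 4)) * (1 / 4) + (1 / B * (Real.log (1 + B * (1 / 4)) +
        1 / (1 + B * (1 / 4))) - 1 / B * (Real.log (1 + B * 0) + 1 / (1 + B * 0))) =
        Real.log (1 + B / 4) / B := by
      have e1 : 1 + B * (1 / 4) = 1 + B / 4 := by ring
      rw [e1, mul_zero, add_zero, Real.log_one]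
      have h5 : (1 + B / 4) ≠ 0 := by positivity
      field_simp
      ring
    rw [e] at h
    have h7 : C * (1 / (1 + B * 0)) + C * (Real.log Y / Real.log z) * (Real.log (1 + B / 4) / B) ≤
        4 * C * (Real.log Y / Real.log z) * ((1 + Real.log (1 + B / 4)) / B) := by
      have h8 : 0 ≤ Real.log (1 + B / 4) := Real.log_nonneg (by linarith)
      have h9 : 0 ≤ C * (Real.log Y / Real.log z) * (Real.log (1 + B / 4) / B) := by positivity
      have h10 : C ≤ C * (Real.log Y / Real.log z * (1 / B)) := by nlinarith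
      have e2 : 4 * C * (Real.log Y / Real.log z) * ((1 + Real.log (1 + B / 4)) / B) =
          4 * (C * (Real.log Y / Real.log z * (1 / B))) +
          4 * (C * (Real.log Y / Real.log z) * (Real.log (1 + B / 4) / B)) := by ring
      rw [e2, mul_zero, add_zero, div_one, mul_one]
      nlinarith
    refine le_trans (le_of_eq (sum_congr rfl fun a _ => ?_)) (h.trans h7)
    ring
  · have h := layer_upper (RS z (Y ^ (1 / 4 : ℝ))) (fun a : ℕ => Real.log a / Real.log Y)
      (fun a : ℕ => 1 / (a.totient : ℝ)) (T := 1 / 4) (A := C)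
      (D := C * (Real.log Y / Real.log z))
      (by norm_num) (fun a ha => t_bounds hY ha) hμ (fun s hs => two_d hB0 hs.1) (two_c hB0)
      (fun s hs => by have := hs.1; positivity) (by positivity) (fun s hs => two_P hB0 hs.1) hG'
    have e : (1 / (1 + B * (1 / 4))) ^ 2 * (1 / 4) + (-(1 / 4 * (1 / (1 + B * (1 / 4))) ^ 2) -
        1 / B * (1 / (1 + B * (1 / 4))) - (-(0 * (1 / (1 + B * 0)) ^ 2) -
        1 / B * (1 / (1 + B * 0)))) = 1 / (4 + B) := by
      have h5 : (1 + B / 4) ≠ 0 := by positivity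
      have e1 : 1 + B * (1 / 4) = 1 + B / 4 := by ring
      rw [e1]
      field_simp
      ring
    rw [e] at h
    have h7 : C * (1 / (1 + B * 0)) ^ 2 + C * (Real.log Y / Real.log z) * (1 / (4 + B)) ≤
        4 * C * (Real.log Y / Real.log z) * (1 / B) := by
      have h8 : 1 / (4 + B) ≤ 1 / B := one_div_le_one_div_of_le (by positivity) (by linarith)
      have h9 : C * (Real.log Y / Real.log z) * (1 / (4 + B)) ≤
          C * (Real.log Y / Real.log z) * (1 / B) := mul_le_mul_of_nonneg_left h8 (by positivity)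
      have h10 : C ≤ C * (Real.log Y / Real.log z * (1 / B)) := by nlinarith
      rw [mul_zero, add_zero, div_one, one_pow, mul_one]
      nlinarith
    refine le_trans (le_of_eq (sum_congr rfl fun a _ => ?_)) (h.trans h7)
    ring

end Pool.Agent.H27.MTP
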