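import Pool.Agent.H31.MP.Basic
import Pool.Agent.H49.OT.GB

/-!
# Row GL of the board mtp_modules: lower bound for sums over rough numbers
-/

set_option autoImplicit false

open Finset

namespace Pool.Agent.H27.MTP.GL

open Pool.Agent.H31.MP
open Pool.Agent.H88.OT (SF fG)
open Pool.Agent.H49.OT (rdq rdq_pf rdq_pos rdq_dvd rdq_sf rdq_cop gb_SF gb_SF' gb_smooth)

/-- lower bound with `log (Y + 1)` -/
theorem gb_one' (q Y : ℕ) (hq : 1 ≤ q) :
    (Nat.totient q : ℝ) / q * Real.log (Y + 1) ≤ fG q Y := by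
  classical
  have hq0 : q ≠ 0 := by omega
  have hφq : (0 : ℝ) < Nat.totient q := by exact_mod_cast Nat.totient_pos.2 hq
  have hqr : (0 : ℝ) < q := by exact_mod_cast hq
  have h1 : Real.log (Y + 1) ≤ ∑ n ∈ Finset.Icc 1 Y, ((n : ℝ))⁻¹ := by
    have h := log_add_one_le_harmonic Y
    rw [harmonic_eq_sum_Icc] at h
    push_cast at h
    exact h
  have h2 : ∑ n ∈ Finset.Icc 1 Y, ((n : ℝ))⁻¹ =
      ∑ s ∈ SF q Y, ∑ n ∈ (Finset.Icc 1 Y).filter (fun n => rdq q n = s), ((n : ℝ))⁻¹ := by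
    rw [Finset.sum_fiberwise_of_maps_to]
    intro n hn
    rw [Finset.mem_Icc] at hn
    exact gb_SF' (rdq_pos q n) (le_trans (Nat.le_of_dvd (by omega) (rdq_dvd q n)) hn.2)
      (rdq_sf q n) (rdq_cop q n hq0)
  have h3 : ∀ s ∈ SF q Y, ∑ n ∈ (Finset.Icc 1 Y).filter (fun n => rdq q n = s), ((n : ℝ))⁻¹ ≤
      (q : ℝ) / Nat.totient q * (1 / (Nat.totient s : ℝ)) := by
    intro s hs
    obtain ⟨hs1, hsY, hsf, hsq⟩ := gb_SF hs
    have hs0 : s ≠ 0 := by omega
    have hsr : (0 : ℝ) < s := by exact_mod_cast hs1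
    have hφs : (0 : ℝ) < Nat.totient s := by exact_mod_cast Nat.totient_pos.2 hs1
    have hinj : Set.InjOn (fun n => n / s)
        ((Finset.Icc 1 Y).filter (fun n => rdq q n = s) : Set ℕ) := by
      intro a ha b hb hab
      have ha' := (Finset.mem_filter.1 (Finset.mem_coe.1 ha)).2
      have hb' := (Finset.mem_filter.1 (Finset.mem_coe.1 hb)).2
      have ha2 : s ∣ a := ha' ▸ rdq_dvd q a
      have hb2 : s ∣ b := hb' ▸ rdq_dvd q b
      have hab' : a / s = b / s := hab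
      rw [← Nat.mul_div_cancel' ha2, ← Nat.mul_div_cancel' hb2, hab']
    have h4 : ∑ n ∈ (Finset.Icc 1 Y).filter (fun n => rdq q n = s), ((n : ℝ))⁻¹ =
        (s : ℝ)⁻¹ * ∑ m ∈ ((Finset.Icc 1 Y).filter (fun n => rdq q n = s)).image (fun n => n / s),
          ((m : ℝ))⁻¹ := by
      rw [Finset.sum_image hinj, Finset.mul_sum]
      refine Finset.sum_congr rfl fun n hn => ?_
      have hn' := (Finset.mem_filter.1 hn).2
      have hd : s ∣ n := hn' ▸ rdq_dvd q n
      rw [← mul_inv, ← Nat.cast_mul, Nat.mul_div_cancel' hd]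
    have h5 := gb_smooth (s * q) (Nat.mul_ne_zero hs0 hq0)
      (((Finset.Icc 1 Y).filter (fun n => rdq q n = s)).image (fun n => n / s)) (by
        intro m hm
        obtain ⟨n, hn, rfl⟩ := Finset.mem_image.1 hm
        obtain ⟨hn1, hn2⟩ := Finset.mem_filter.1 hn
        rw [Finset.mem_Icc] at hn1
        have hd : s ∣ n := hn2 ▸ rdq_dvd q n
        have hn0 : n ≠ 0 := by omega
        have hns : n / s ≠ 0 := by
          intro h0
          have := Nat.mul_div_cancel' hd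
          rw [h0, mul_zero] at this
          exact hn0 this.symm
        refine Nat.mem_factoredNumbers_of_primeFactors_subset hns ?_
        intro p hp
        have hp1 : p ∈ n.primeFactors :=
          Nat.primeFactors_mono (Nat.div_dvd_of_dvd hd) hn0 hp
        rw [Nat.primeFactors_mul hs0 hq0, Finset.mem_union]
        by_cases hpq : p ∈ q.primeFactors
        · exact Or.inr hpq
        · left
          rw [← hn2, rdq_pf]
          exact Finset.mem_sdiff.2 ⟨hp1, hpq⟩)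
    rw [h4]
    refine le_trans (mul_le_mul_of_nonneg_left h5 (by positivity)) (le_of_eq ?_)
    rw [Nat.totient_mul hsq]
    push_cast
    field_simp
  have h6 : ∑ n ∈ Finset.Icc 1 Y, ((n : ℝ))⁻¹ ≤ (q : ℝ) / Nat.totient q * fG q Y := by
    rw [h2, fG, Finset.mul_sum]
    exact Finset.sum_le_sum h3
  calc (Nat.totient q : ℝ) / q * Real.log (Y + 1)
      ≤ (Nat.totient q : ℝ) / q * ((q : ℝ) / Nat.totient q * fG q Y) :=
        mul_le_mul_of_nonneg_left (le_trans h1 h6) (by positivity)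
    _ = fG q Y := by field_simp

/-- the product of the primes up to `z` -/
noncomputable def qq (z : ℝ) : ℕ := ∏ p ∈ (Icc 1 ⌊z⌋₊).filter Nat.Prime, p

theorem qq_pos (z : ℝ) : 1 ≤ qq z := by
  have h : 0 < qq z := by
    unfold qq
    exact Finset.prod_pos fun p hp => Nat.Prime.pos (mem_filter.1 hp).2
  exact h

theorem qq_totient (z : ℝ) : (Nat.totient (qq z) : ℝ) / qq z = Me z := by
  have h1 := Nat.totient_eq_mul_prod_factors (qq z)
  have h2 : ((qq z).totient : ℝ) = qq z * ∏ p ∈ (qq z).primeFactors, (1 - (p : ℝ)⁻¹) := by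
    have h0 : (((qq z).totient : ℚ) : ℝ) =
        ((qq z * ∏ p ∈ (qq z).primeFactors, (1 - (p : ℚ)⁻¹) : ℚ) : ℝ) := by
      rw [h1]
    push_cast at h0
    exact h0
  have h3 : (qq z).primeFactors = (Icc 1 ⌊z⌋₊).filter Nat.Prime :=
    Nat.primeFactors_prod fun p hp => (mem_filter.1 hp).2
  have h4 : (0 : ℝ) < qq z := by exact_mod_cast qq_pos z
  rw [h2, h3, Me, mul_div_cancel_left₀ _ h4.ne']
  simp only [one_div]

theorem RS_eq {z Y : ℝ} (hz : 0 ≤ z) : RS z Y = SF (qq z) ⌊Y⌋₊ := by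
  classical
  ext a
  unfold RS
  rw [mem_filter, mem_Icc]
  constructor
  · rintro ⟨⟨h1, h2⟩, h3, h4⟩
    refine gb_SF' h1 h2 h3 ?_
    refine Nat.Coprime.prod_right fun p hp => ?_
    obtain ⟨hp1, hp2⟩ := mem_filter.1 hp
    rw [Nat.coprime_comm, Nat.Prime.coprime_iff_not_dvd hp2]
    intro hd
    have h5 := h4 p hp2 hd
    have h6 := (Nat.le_floor_iff hz).1 (mem_Icc.1 hp1).2
    linarith
  · intro h
    obtain ⟨h1, h2, h3, h4⟩ := gb_SF h
    refine ⟨⟨h1, h2⟩, h3, fun p hp hd => ?_⟩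
    by_contra hne
    push Not at hne
    have h5 : p ∣ qq z := Finset.dvd_prod_of_mem (fun p => p)
      (mem_filter.2 ⟨mem_Icc.2 ⟨hp.one_lt.le, (Nat.le_floor_iff hz).2 hne⟩, hp⟩)
    have h6 := Nat.dvd_gcd hd h5
    rw [h4] at h6
    exact hp.one_lt.ne' (Nat.dvd_one.1 h6)

theorem pf_GL : T_GL := by
  intro z Y hz hY
  have h1 := gb_one' (qq z) ⌊Y⌋₊ (qq_pos z)
  rw [qq_totient, fG, ← RS_eq (by linarith : (0 : ℝ) ≤ z)] at h1
  have h2 : Real.log Y ≤ Real.log ((⌊Y⌋₊ : ℝ) + 1) :=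
    Real.log_le_log (by linarith) (Nat.lt_floor_add_one Y).le
  have h3 : 0 < Me z := by
    rw [← qq_totient]
    have h4 : (0 : ℝ) < qq z := by exact_mod_cast qq_pos z
    have h5 : (0 : ℝ) < (qq z).totient := by exact_mod_cast Nat.totient_pos.2 (qq_pos z)
    positivity
  rw [inv_mul_eq_div, le_div_iff₀ h3]
  nlinarith

end Pool.Agent.H27.MTP.GL
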